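import Pool.Agent.WR2.StmtsC

/-! Squad WR2, row AVA. -/

set_option autoImplicit false

namespace Pool.Agent.WR2.H10

open Pool.Agent.WR2
open scoped BigOperators

theorem icc_range (n : ℕ) (f : ℕ → ℝ) :
    ∑ m ∈ Finset.Icc 1 n, f m = ∑ i ∈ Finset.range n, f (i + 1) := by
  induction n with
  | zero => simp
  | succ n ih => rw [Finset.sum_range_succ, ← ih, Finset.sum_Icc_succ_top (by omega)]

theorem lvk {N : ℕ} {f : ℕ → ℝ} (h : Lv N f) (k m : ℕ) (hm : 0 < m) :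
    f (m + k * 3 ^ N) = f m := by
  induction k with
  | zero => rw [Nat.zero_mul, Nat.add_zero]
  | succ k ih =>
    have e : m + (k + 1) * 3 ^ N = (m + k * 3 ^ N) + 3 ^ N := by ring
    rw [e, h _ (by omega), ih]

theorem sumk {N : ℕ} {f : ℕ → ℝ} (h : Lv N f) (k : ℕ) :
    ∑ m ∈ Finset.Icc 1 (k * 3 ^ N), f m = k * ∑ m ∈ Finset.Icc 1 (3 ^ N), f m := by
  rw [icc_range, icc_range]
  induction k with
  | zero => simp
  | succ k ih =>
    have e : (k + 1) * 3 ^ N = k * 3 ^ N + 3 ^ N := by ring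
    rw [e, Finset.sum_range_add, ih]
    have e2 : ∑ x ∈ Finset.range (3 ^ N), f (k * 3 ^ N + x + 1) =
        ∑ x ∈ Finset.range (3 ^ N), f (x + 1) := by
      refine Finset.sum_congr rfl fun x _ => ?_
      have e3 : k * 3 ^ N + x + 1 = (x + 1) + k * 3 ^ N := by ring
      rw [e3, lvk h k (x + 1) (Nat.succ_pos x)]
    rw [e2]
    push_cast
    ring

theorem sumz (N : ℕ) (F : ZMod (3 ^ N) → ℝ) :
    ∑ m ∈ Finset.Icc 1 (3 ^ N), F ((m : ℕ) : ZMod (3 ^ N)) = ∑ z, F z := by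
  have : NeZero (3 ^ N) := ⟨by positivity⟩
  have hs : ∑ z, F (z + 1) = ∑ z, F z := Fintype.sum_equiv (Equiv.addRight (1 : ZMod (3 ^ N))) _ _
    (fun z => rfl)
  rw [icc_range (3 ^ N) (fun m => F ((m : ℕ) : ZMod (3 ^ N))), ← hs]
  refine Finset.sum_bij' (fun i _ => ((i : ℕ) : ZMod (3 ^ N))) (fun z _ => z.val) ?_ ?_ ?_ ?_ ?_
  · intro i _
    exact Finset.mem_univ _
  · intro z _
    exact Finset.mem_range.2 (ZMod.val_lt z)
  · intro i hi
    exact ZMod.val_cast_of_lt (Finset.mem_range.1 hi)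
  · intro z _
    exact ZMod.natCast_zmod_val z
  · intro i _
    show F ((i + 1 : ℕ) : ZMod (3 ^ N)) = F ((i : ℕ) + 1)
    rw [Nat.cast_add, Nat.cast_one]

theorem ava : AvaStmt := by
  refine ⟨?_, ?_, ?_, ?_⟩
  · intro N N' f h hN
    have e : 3 ^ N' = 3 ^ (N' - N) * 3 ^ N := by
      rw [← pow_add, Nat.sub_add_cancel hN]
    refine ⟨?_, ?_⟩
    · intro m hm
      rw [e, lvk h _ m hm]
    · have e' : (3 : ℝ) ^ N' = 3 ^ (N' - N) * 3 ^ N := by exact_mod_cast e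
      unfold av
      rw [e, sumk h, e', Nat.cast_pow, Nat.cast_ofNat]
      have h3 : (0 : ℝ) < 3 ^ (N' - N) := by positivity
      exact mul_div_mul_left _ _ h3.ne'
  · intro N F
    refine ⟨?_, ?_⟩
    · intro m _
      show F ((m + 3 ^ N : ℕ) : ZMod (3 ^ N)) = F ((m : ℕ) : ZMod (3 ^ N))
      rw [Nat.cast_add, ZMod.natCast_self, add_zero]
    · unfold av
      rw [sumz]
  · intro N f h
    refine ⟨fun z => f (z.val + 3 ^ N), ?_⟩
    intro m hm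
    show f m = f (((m : ℕ) : ZMod (3 ^ N)).val + 3 ^ N)
    rw [ZMod.val_natCast]
    have e : m + 3 ^ N = (m % 3 ^ N + 3 ^ N) + m / 3 ^ N * 3 ^ N := by
      have := Nat.mod_add_div m (3 ^ N)
      nlinarith [this]
    rw [← h m hm, e, lvk h _ _ (by positivity)]
  · intro N Y f h hf hY
    have hp : 0 < 3 ^ N := by positivity
    have hd := Nat.mod_add_div Y (3 ^ N)
    have hl := Nat.mod_lt Y hp
    have hsub : Finset.Icc 1 Y ⊆ Finset.Icc 1 ((Y / 3 ^ N + 1) * 3 ^ N) := by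
      refine Finset.Icc_subset_Icc le_rfl ?_
      nlinarith
    have h1 : ∑ m ∈ Finset.Icc 1 Y, f m ≤ ∑ m ∈ Finset.Icc 1 ((Y / 3 ^ N + 1) * 3 ^ N), f m :=
      Finset.sum_le_sum_of_subset_of_nonneg hsub (fun m _ _ => hf m)
    have hS : 0 ≤ ∑ m ∈ Finset.Icc 1 (3 ^ N), f m := Finset.sum_nonneg fun m _ => hf m
    have h2 : (Y / 3 ^ N + 1) * 3 ^ N ≤ 2 * Y := by
      have : 3 ^ N * (Y / 3 ^ N) ≤ Y := Nat.mul_div_le Y (3 ^ N)
      nlinarith
    have h2' : (((Y / 3 ^ N + 1 : ℕ) : ℝ)) * 3 ^ N ≤ 2 * Y := by exact_mod_cast h2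
    have h3 : (0 : ℝ) < 3 ^ N := by positivity
    rw [sumk h] at h1
    refine h1.trans ?_
    unfold av
    have h4 : (((Y / 3 ^ N + 1 : ℕ) : ℝ)) ≤ 2 * Y / 3 ^ N := by
      rw [le_div_iff₀ h3]
      exact h2'
    calc ((Y / 3 ^ N + 1 : ℕ) : ℝ) * ∑ m ∈ Finset.Icc 1 (3 ^ N), f m
        ≤ (2 * Y / 3 ^ N) * ∑ m ∈ Finset.Icc 1 (3 ^ N), f m := mul_le_mul_of_nonneg_right h4 hS
      _ = 2 * Y * ((∑ m ∈ Finset.Icc 1 (3 ^ N), f m) / 3 ^ N) := by ring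

end Pool.Agent.WR2.H10
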